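import Mathlib
import Pool.Agent.Helper43.Hw.Goals

/-! Packet Hw H5 (MP_d3128a_ag): the greedy play exists. -/

set_option autoImplicit false

namespace Pool.Agent.Helper43.Hw.PkH5

open Finset
open Pool.Agent.Helper43.Gm (st mv nn Run Pri)
open Pool.Agent.Helper43.Hw

/-- value of an old point -/
def ov (μ : ℕ) (κ x : ℕ → ℕ) (c z : ℕ) : ℕ :=
  μ - (z - st κ c z) - (mv κ x (fun _ => μ) c z).card

variable {μ R N : ℕ} {κ x κ' x' : ℕ → ℕ}

theorem st_congr {z : ℕ} (h : ∀ y < z, κ y = κ' y) (c : ℕ) : st κ c z = st κ' c z := by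
  unfold st
  refine congrArg Finset.card (Finset.filter_congr fun y hy => ?_)
  rw [h y (mem_range.1 hy)]

theorem mv_congr {z : ℕ} (h : ∀ y < z, κ y = κ' y ∧ x y = x' y) (ν : ℕ → ℕ) (c : ℕ) :
    mv κ x ν c z = mv κ' x' ν c z := by
  unfold mv
  refine Finset.filter_congr fun y hy => ?_
  rw [(h y (mem_range.1 hy)).1, (h y (mem_range.1 hy)).2]

theorem ov_congr {z : ℕ} (h : ∀ y < z, κ y = κ' y ∧ x y = x' y) (c : ℕ) :
    ov μ κ x c z = ov μ κ' x' c z := by
  unfold ov
  rw [st_congr (fun y hy => (h y hy).1), mv_congr h]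

theorem va_old {c z : ℕ} (h : c < κ z) : va μ R κ x c z = ov μ κ x c z := by
  unfold va nn ov
  rw [if_neg (by omega), if_neg (by omega), if_neg (by omega)]

theorem va_eq {c z : ℕ} (h : κ z = c) : va μ R κ x c z = x z := by
  unfold va nn
  rw [if_neg (by omega), if_neg (by omega), if_pos h]

theorem va_new {c z : ℕ} (h : κ z < c) : va μ R κ x c z = na μ R z := by
  unfold va
  rw [if_pos h]

theorem va_congr {z : ℕ} (h : ∀ y ≤ z, κ y = κ' y ∧ x y = x' y) (c : ℕ) :
    va μ R κ x c z = va μ R κ' x' c z := by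
  have h0 := h z le_rfl
  rcases lt_trichotomy (κ z) c with h1 | h1 | h1
  · rw [va_new h1, va_new (by rw [← h0.1]; exact h1)]
  · rw [va_eq h1, va_eq (by rw [← h0.1]; exact h1), h0.2]
  · rw [va_old h1, va_old (by rw [← h0.1]; exact h1), ov_congr fun y hy => h y hy.le]

theorem lz_congr {z : ℕ} (h : ∀ y ≤ z, κ y = κ' y ∧ x y = x' y) :
    lz μ R N κ x z = lz μ R N κ' x' z := by
  unfold lz
  exact Finset.sum_congr rfl fun c _ => va_congr h c

theorem lz_eq {z : ℕ} (hk : κ z ≤ N) : lz μ R N κ x z =
    ∑ c ∈ range (κ z), ov μ κ x c z +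
      (if κ z < N then x z + (N - 1 - κ z) * na μ R z else 0) := by
  unfold lz
  rcases Nat.lt_or_ge (κ z) N with h | h
  · rw [if_pos h]
    have hN : N = κ z + (1 + (N - 1 - κ z)) := by omega
    have h1 : ∑ c ∈ range N, va μ R κ x c z =
        ∑ c ∈ range (κ z + (1 + (N - 1 - κ z))), va μ R κ x c z := by
      rw [← hN]
    rw [h1, Finset.sum_range_add, Finset.sum_range_add]
    congr 1
    · exact Finset.sum_congr rfl fun c hc => va_old (mem_range.1 hc)
    · congr 1
      · rw [Finset.sum_range_one]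
        exact va_eq rfl
      · rw [Finset.sum_congr rfl (g := fun _ => na μ R z) fun c _ => va_new (by omega),
          Finset.sum_const, card_range, smul_eq_mul]
  · rw [if_neg (by omega), add_zero, show N = κ z by omega]
    exact Finset.sum_congr rfl fun c hc => va_old (mem_range.1 hc)

theorem bb_eq {y : ℕ} (h : κ y ≤ κ (y + 1)) : bb μ R N κ x y =
    ∑ c ∈ range (κ y), ov μ κ x c (y + 1) + (N - 1 - κ y) * na μ R (y + 1) + nx μ R x y := by
  unfold bb
  congr 2
  refine Finset.sum_congr rfl fun c hc => va_old ?_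
  have := mem_range.1 hc
  omega

/-- the greedy rule at the row `y` -/
def Gst (μ R N : ℕ) (κ x : ℕ → ℕ) (y : ℕ) : Prop :=
    (y + 2 ≤ bb μ R N κ x y ∧ lz μ R N κ x (y + 1) = bb μ R N κ x y ∧
      ((κ (y + 1) = κ y ∧ x (y + 1) = nx μ R x y) ∨
        (κ (y + 1) = κ y + 1 ∧ nx μ R x y = μ ∧ (κ (y + 1) < N → x (y + 1) = na μ R (y + 1))))) ∨
    (bb μ R N κ x y < y + 2 ∧
      (lz μ R N κ x (y + 1) = y + 2 ∨ (κ (y + 1) = N ∧ lz μ R N κ x (y + 1) ≤ y + 2)))

theorem Gst_congr {y : ℕ} (h : ∀ z ≤ y + 1, κ z = κ' z ∧ x z = x' z) (h1 : κ y ≤ κ (y + 1))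
    (hG : Gst μ R N κ x y) : Gst μ R N κ' x' y := by
  have e1 : bb μ R N κ' x' y = bb μ R N κ x y := by
    rw [bb_eq h1, bb_eq (by rw [← (h y (by omega)).1, ← (h (y + 1) le_rfl).1]; exact h1)]
    rw [← (h y (by omega)).1]
    congr 1
    · congr 1
      exact Finset.sum_congr rfl fun c _ =>
        (ov_congr (fun z hz => h z (by omega)) c).symm
    · unfold nx
      rw [(h y (by omega)).2]
  have e2 : lz μ R N κ' x' (y + 1) = lz μ R N κ x (y + 1) := (lz_congr h).symm
  have e3 : nx μ R x' y = nx μ R x y := by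
    unfold nx
    rw [(h y (by omega)).2]
  unfold Gst at *
  rw [e1, e2, e3, ← (h y (by omega)).1, ← (h (y + 1) le_rfl).1, ← (h (y + 1) le_rfl).2]
  exact hG

/-- the play on the rows `0, …, L - 1` -/
structure PP (μ R N L : ℕ) (κ x : ℕ → ℕ) : Prop where
  mono : ∀ y, y + 1 < L → κ y ≤ κ (y + 1)
  le : ∀ y < L, κ y ≤ N
  lt : ∀ y < L, x y < μ
  nat : ∀ y < L, κ y < N → na μ R y ≤ x y
  fin : ∀ y < L, κ y = N → x y = 0
  inc : ∀ y, y + 1 < L → 0 < x y → κ (y + 1) = κ y → x y < x (y + 1)
  g0 : lz μ R N κ x 0 = 1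
  gr : ∀ y, y + 1 < L → κ y < N → Gst μ R N κ x y

theorem PP.mono' {L : ℕ} (h : PP μ R N L κ x) {y z : ℕ} (hyz : y ≤ z) (hz : z < L) :
    κ y ≤ κ z := by
  induction z, hyz using Nat.le_induction with
  | base => exact le_rfl
  | succ z _ ih => exact (ih (by omega)).trans (h.mono z hz)

theorem PP.incr {L : ℕ} (h : PP μ R N L κ x) {y z : ℕ} (hyz : y ≤ z) (hz : z < L)
    (hk : κ z = κ y) (hx : 0 < x y) : x y + (z - y) ≤ x z := by
  induction z, hyz using Nat.le_induction with
  | base => omega
  | succ z hz' ih =>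
    have h1 : κ z = κ y := by
      have := h.mono' hz' (by omega)
      have := h.mono z hz
      omega
    have h2 := ih (by omega) h1
    have h3 := h.inc z hz (by omega) (by omega)
    omega

theorem PP.ov_new {y c : ℕ} (h : PP μ R N (y + 1) κ x) (hc : κ y ≤ c) :
    ov μ κ x c (y + 1) = μ := by
  have h1 : st κ c (y + 1) = y + 1 := by
    unfold st
    rw [Finset.filter_true_of_mem, card_range]
    intro z hz
    exact (h.mono' (Nat.lt_succ_iff.1 (mem_range.1 hz)) (by omega)).trans hc
  have h2 : mv κ x (fun _ => μ) c (y + 1) = ∅ := by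
    unfold mv
    rw [Finset.filter_eq_empty_iff]
    rintro z hz ⟨h3, h4, h5⟩
    have hz' : z ≤ y := Nat.lt_succ_iff.1 (mem_range.1 hz)
    have h6 := h.mono' hz' (by omega)
    have h7 := h.incr hz' (by omega) (by omega) h4
    have h8 := h.lt y (by omega)
    simp only at h5
    omega
  unfold ov
  rw [h1, h2, card_empty]
  omega

theorem ext {y : ℕ} (h : PP μ R N (y + 1) κ x) (k v : ℕ) (h1 : κ y ≤ k) (h2 : k ≤ N) (h3 : v < μ)
    (h4 : k < N → na μ R (y + 1) ≤ v) (h5 : k = N → v = 0)
    (h6 : 0 < x y → k = κ y → x y < v)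
    (h7 : κ y < N → ∀ S a b l : ℕ, S = ∑ c ∈ range (κ y), ov μ κ x c (y + 1) →
      a = na μ R (y + 1) → b = S + (N - 1 - κ y) * a + nx μ R x y →
      l = S + (k - κ y) * μ + (if k < N then v + (N - 1 - k) * a else 0) →
      (y + 2 ≤ b ∧ l = b ∧ ((k = κ y ∧ v = nx μ R x y) ∨
        (k = κ y + 1 ∧ nx μ R x y = μ ∧ (k < N → v = na μ R (y + 1))))) ∨
      (b < y + 2 ∧ (l = y + 2 ∨ (k = N ∧ l ≤ y + 2)))) :
    ∃ κ' x' : ℕ → ℕ, PP μ R N (y + 2) κ' x' := by
  let κ' : ℕ → ℕ := fun z => if z ≤ y then κ z else k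
  let x' : ℕ → ℕ := fun z => if z ≤ y then x z else v
  have e1 : ∀ z ≤ y, κ z = κ' z ∧ x z = x' z := by
    intro z hz
    simp [κ', x', hz]
  have e2 : κ' (y + 1) = k := by simp [κ']
  have e3 : x' (y + 1) = v := by simp [x']
  have m1 : κ' y ≤ κ' (y + 1) := by rw [e2, ← (e1 y le_rfl).1]; exact h1
  refine ⟨κ', x', ?_, ?_, ?_, ?_, ?_, ?_, ?_, ?_⟩
  · intro z hz
    rcases Nat.lt_or_ge z y with hz' | hz'
    · rw [← (e1 z (by omega)).1, ← (e1 (z + 1) (by omega)).1]
      exact h.mono z (by omega)
    · rw [show z = y by omega]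
      exact m1
  · intro z hz
    rcases Nat.lt_or_ge z (y + 1) with hz' | hz'
    · rw [← (e1 z (by omega)).1]
      exact h.le z hz'
    · rw [show z = y + 1 by omega, e2]
      exact h2
  · intro z hz
    rcases Nat.lt_or_ge z (y + 1) with hz' | hz'
    · rw [← (e1 z (by omega)).2]
      exact h.lt z hz'
    · rw [show z = y + 1 by omega, e3]
      exact h3
  · intro z hz
    rcases Nat.lt_or_ge z (y + 1) with hz' | hz'
    · rw [← (e1 z (by omega)).2, ← (e1 z (by omega)).1]
      exact h.nat z hz'
    · rw [show z = y + 1 by omega, e3, e2]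
      exact h4
  · intro z hz
    rcases Nat.lt_or_ge z (y + 1) with hz' | hz'
    · rw [← (e1 z (by omega)).2, ← (e1 z (by omega)).1]
      exact h.fin z hz'
    · rw [show z = y + 1 by omega, e3, e2]
      exact h5
  · intro z hz
    rcases Nat.lt_or_ge z y with hz' | hz'
    · rw [← (e1 z (by omega)).1, ← (e1 (z + 1) (by omega)).1, ← (e1 z (by omega)).2,
        ← (e1 (z + 1) (by omega)).2]
      exact h.inc z (by omega)
    · rw [show z = y by omega, e2, e3, ← (e1 y le_rfl).1, ← (e1 y le_rfl).2]
      exact h6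
  · rw [← lz_congr (κ := κ) (x := x) fun z hz => e1 z (by omega)]
    exact h.g0
  · intro z hz hzN
    rcases Nat.lt_or_ge z y with hz' | hz'
    · refine Gst_congr (fun t ht => e1 t (by omega)) (h.mono z (by omega))
        (h.gr z (by omega) ?_)
      rw [(e1 z (by omega)).1]
      exact hzN
    · rw [show z = y by omega] at hzN ⊢
      rw [← (e1 y le_rfl).1] at hzN
      have n1 : nx μ R x' y = nx μ R x y := by
        unfold nx
        rw [(e1 y le_rfl).2]
      have hov : ∀ c, ov μ κ' x' c (y + 1) = ov μ κ x c (y + 1) := fun c =>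
        (ov_congr (fun t ht => e1 t (by omega)) c).symm
      have b1 : bb μ R N κ' x' y = ∑ c ∈ range (κ y), ov μ κ x c (y + 1) +
          (N - 1 - κ y) * na μ R (y + 1) + nx μ R x y := by
        rw [bb_eq m1, n1, ← (e1 y le_rfl).1]
        simp only [hov]
      have l1 : lz μ R N κ' x' (y + 1) = ∑ c ∈ range (κ y), ov μ κ x c (y + 1) +
          (k - κ y) * μ + (if k < N then v + (N - 1 - k) * na μ R (y + 1) else 0) := by
        rw [lz_eq (by rw [e2]; exact h2), e2, e3]
        simp only [hov]
        congr 1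
        conv_lhs => rw [show k = κ y + (k - κ y) by omega]
        rw [Finset.sum_range_add]
        congr 1
        rw [Finset.sum_congr rfl (g := fun _ => μ) fun c _ => h.ov_new (by omega),
          Finset.sum_const, card_range, smul_eq_mul]
      have := h7 hzN _ _ _ _ rfl rfl rfl rfl
      unfold Gst
      rw [b1, l1, e2, e3, n1, ← (e1 y le_rfl).1]
      exact this

theorem step {y : ℕ} (hμ : 1 ≤ μ) (hR : y + 3 ≤ R) (h : PP μ R N (y + 1) κ x) :
    ∃ κ' x' : ℕ → ℕ, PP μ R N (y + 2) κ' x' := by
  rcases Nat.lt_or_ge (κ y) N with hN | hN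
  · set a := na μ R (y + 1) with ha
    set S := ∑ c ∈ range (κ y), ov μ κ x c (y + 1) with hS
    have ha1 : a < μ := by
      rw [ha]
      unfold na
      omega
    have hxy := h.lt y (by omega)
    have hnat := h.nat y (by omega) hN
    have hnx : nx μ R x y ≤ μ := by
      unfold nx
      split_ifs
      · omega
      · exact ha1.le
    have hanx : a ≤ nx μ R x y := by
      unfold nx
      split_ifs
      · unfold na at ha hnat
        omega
      · exact le_rfl
    have hxnx : 0 < x y → x y < nx μ R x y := by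
      intro hx
      unfold nx
      rw [if_pos hx]
      omega
    by_cases hb : y + 2 ≤ S + (N - 1 - κ y) * a + nx μ R x y
    · by_cases hn : nx μ R x y < μ
      · refine ext h (κ y) (nx μ R x y) le_rfl hN.le hn (fun _ => hanx) (fun h0 => by omega)
          (fun hx _ => hxnx hx) ?_
        intro _ S' a' b l h1 h2 h3 h4
        rw [← hS] at h1
        rw [← ha] at h2
        subst h1 h2
        rw [if_pos hN] at h4
        refine Or.inl ⟨by omega, ?_, Or.inl ⟨rfl, rfl⟩⟩
        rw [h3, h4]
        simp only [Nat.sub_self, zero_mul]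
        omega
      · refine ext h (κ y + 1) (if κ y + 1 < N then a else 0) (by omega) hN ?_ ?_ ?_ ?_ ?_
        · split_ifs <;> omega
        · intro h0
          rw [if_pos h0]
        · intro h0
          rw [if_neg (by omega)]
        · intro _ h0
          omega
        · intro _ S' a' b l h1 h2 h3 h4
          rw [← hS] at h1
          rw [← ha] at h2
          subst h1 h2
          refine Or.inl ⟨by omega, ?_, Or.inr ⟨rfl, by omega, fun h0 => by rw [if_pos h0]⟩⟩
          rw [h3, h4]
          by_cases h0 : κ y + 1 < N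
          · rw [if_pos h0, if_pos h0]
            obtain ⟨m, hm⟩ : ∃ m, N = κ y + 2 + m := ⟨N - (κ y + 2), by omega⟩
            have e1 : N - 1 - κ y = m + 1 := by omega
            have e2 : N - 1 - (κ y + 1) = m := by omega
            have e3 : κ y + 1 - κ y = 1 := by omega
            rw [e1, e2, e3, add_mul]
            omega
          · rw [if_neg h0]
            have e1 : N - 1 - κ y = 0 := by omega
            have e3 : κ y + 1 - κ y = 1 := by omega
            rw [e1, e3]
            omega
    · obtain ⟨X, hX⟩ : ∃ X, X + S + (N - 1 - κ y) * a = y + 2 :=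
        ⟨y + 2 - S - (N - 1 - κ y) * a, by omega⟩
      by_cases hXμ : X < μ
      · refine ext h (κ y) X le_rfl hN.le hXμ (fun _ => by omega) (fun h0 => by omega)
          (fun hx _ => by have := hxnx hx; omega) ?_
        intro _ S' a' b l h1 h2 h3 h4
        rw [← hS] at h1
        rw [← ha] at h2
        subst h1 h2
        rw [if_pos hN] at h4
        refine Or.inr ⟨by omega, Or.inl ?_⟩
        rw [h4]
        simp only [Nat.sub_self, zero_mul]
        omega
      · have hd : 0 < μ - a := by omega
        set j := (X - a) / (μ - a) with hj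
        have hj1 : 1 ≤ j := (Nat.one_le_div_iff hd).2 (by omega)
        have hj2 : j * (μ - a) ≤ X - a := Nat.div_mul_le_self _ _
        have hj3 : X - a < (j + 1) * (μ - a) := by
          have := Nat.lt_div_mul_add hd (a := X - a)
          rw [← hj] at this
          rw [add_mul]
          omega
        by_cases hk : κ y + j < N
        · refine ext h (κ y + j) (X - j * (μ - a)) (by omega) hk.le ?_ ?_ ?_ ?_ ?_
          · rw [add_mul] at hj3
            omega
          · intro _
            omega
          · intro h0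
            omega
          · intro _ h0
            omega
          · intro _ S' a' b l h1 h2 h3 h4
            rw [← hS] at h1
            rw [← ha] at h2
            subst h1 h2
            rw [if_pos hk] at h4
            refine Or.inr ⟨by omega, Or.inl ?_⟩
            rw [h4, ← hX]
            obtain ⟨m, hm⟩ : ∃ m, N = κ y + j + 1 + m := ⟨N - (κ y + j + 1), by omega⟩
            obtain ⟨d, hd'⟩ : ∃ d, μ = a + d := ⟨μ - a, by omega⟩
            have e1 : N - 1 - κ y = m + j := by omega
            have e2 : N - 1 - (κ y + j) = m := by omega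
            have e3 : κ y + j - κ y = j := by omega
            have e4 : μ - a = d := by omega
            rw [e4] at hj2 ⊢
            obtain ⟨w, hw⟩ : ∃ w, X = j * d + w := ⟨X - j * d, by omega⟩
            have e5 : X - j * d = w := by omega
            rw [e1, e2, e3, e5, hd', hw]
            ring
        · refine ext h N 0 hN.le le_rfl (by omega) (fun h0 => by omega) (fun _ => rfl)
            (fun _ h0 => by omega) ?_
          intro _ S' a' b l h1 h2 h3 h4
          rw [← hS] at h1
          rw [← ha] at h2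
          subst h1 h2
          rw [if_neg (lt_irrefl N), add_zero] at h4
          refine Or.inr ⟨by omega, Or.inr ⟨rfl, ?_⟩⟩
          rw [h4, ← hX]
          obtain ⟨m, hm⟩ : ∃ m, N = κ y + 1 + m := ⟨N - (κ y + 1), by omega⟩
          obtain ⟨d, hd'⟩ : ∃ d, μ = a + d := ⟨μ - a, by omega⟩
          have e1 : N - 1 - κ y = m := by omega
          have e3 : N - κ y = m + 1 := by omega
          have e4 : μ - a = d := by omega
          rw [e4] at hj2
          rw [e1, e3, hd']
          have h5 : (m + 1) * d ≤ j * d := Nat.mul_le_mul_right d (by omega)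
          have h6 : (m + 1) * (a + d) = (m + 1) * d + m * a + a := by ring
          rw [h6]
          omega
  · have hN' : κ y = N := le_antisymm (h.le y (by omega)) hN
    have hx := h.fin y (by omega) hN'
    refine ext h N 0 (by omega) le_rfl (by omega) (fun h0 => by omega) (fun _ => rfl)
      (fun h0 _ => by omega) (fun h0 => by omega)

theorem base (hμ : 1 ≤ μ) (hR : μ + 2 ≤ R) (hN : 1 ≤ N) : ∃ κ x : ℕ → ℕ, PP μ R N 1 κ x := by
  have hna : na μ R 0 = 0 := by
    unfold na
    omega
  rcases Nat.lt_or_ge 1 μ with h | h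
  · refine ⟨fun _ => 0, fun _ => 1, fun y hy => by omega, fun y _ => by omega, fun y _ => h,
      fun y hy _ => ?_, fun y hy h0 => by omega, fun y hy => by omega, ?_, fun y hy => by omega⟩
    · rw [show y = 0 by omega, hna]
      omega
    · rw [lz_eq (by omega), if_pos (by omega), hna]
      simp
  · have hμ1 : μ = 1 := by omega
    subst hμ1
    refine ⟨fun _ => 1, fun _ => 0, fun y hy => by omega, fun y _ => hN, fun y _ => by omega,
      fun y hy _ => ?_, fun y hy h0 => rfl, fun y hy => by omega, ?_, fun y hy => by omega⟩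
    · rw [show y = 0 by omega, hna]
    · rw [lz_eq hN, hna, Finset.sum_range_one]
      have : ov 1 (fun _ => 1) (fun _ => 0) 0 0 = 1 := by
        unfold ov st mv
        simp
      rw [this]
      simp

theorem all (hμ : 1 ≤ μ) (hR : μ + 2 ≤ R) (hN : 1 ≤ N) : ∀ L, L + 2 ≤ R →
    ∃ κ x : ℕ → ℕ, PP μ R N (L + 1) κ x := by
  intro L
  induction L with
  | zero => exact fun _ => base hμ hR hN
  | succ L ih =>
    intro hL
    obtain ⟨κ, x, h⟩ := ih (by omega)
    exact step hμ (by omega) h

theorem goalH5 : GoalH5 := by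
  intro μ R N hμ hR hN
  obtain ⟨κ, x, h⟩ := all hμ hR hN (R - 2) (by omega)
  rw [show R - 2 + 1 = R - 1 by omega] at h
  let κ' : ℕ → ℕ := fun z => if z < R - 1 then κ z else κ (R - 2)
  let x' : ℕ → ℕ := fun z => if z < R - 1 then x z else if κ (R - 2) < N then μ else 0
  have e1 : ∀ z < R - 1, κ z = κ' z ∧ x z = x' z := by
    intro z hz
    simp [κ', x', hz]
  have e2 : κ' (R - 1) = κ (R - 2) := by simp [κ']
  have e3 : x' (R - 1) = if κ (R - 2) < N then μ else 0 := by simp [x']
  refine ⟨κ', x', ⟨?_, ?_, ?_, ?_, ?_, ?_, ?_, ?_⟩, ?_, ?_⟩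
  · intro z hz
    rcases Nat.lt_or_ge (z + 1) (R - 1) with hz' | hz'
    · rw [← (e1 z (by omega)).1, ← (e1 (z + 1) (by omega)).1]
      exact h.mono z (by omega)
    · rw [show z + 1 = R - 1 by omega, e2, show z = R - 2 by omega, ← (e1 (R - 2) (by omega)).1]
  · intro z hz
    rcases Nat.lt_or_ge z (R - 1) with hz' | hz'
    · rw [← (e1 z hz').1]
      exact h.le z hz'
    · rw [show z = R - 1 by omega, e2]
      exact h.le _ (by omega)
  · intro z hz
    rw [← (e1 z (by omega)).2]
    exact h.lt z (by omega)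
  · intro z hz
    rcases Nat.lt_or_ge z (R - 1) with hz' | hz'
    · rw [← (e1 z hz').1, ← (e1 z hz').2]
      exact h.nat z hz'
    · rw [show z = R - 1 by omega, e2, e3]
      intro h0
      rw [if_pos h0]
      unfold na
      omega
  · intro z hz
    rcases Nat.lt_or_ge z (R - 1) with hz' | hz'
    · rw [← (e1 z hz').1, ← (e1 z hz').2]
      exact h.fin z hz'
    · rw [show z = R - 1 by omega, e2, e3]
      intro h0
      rw [if_neg (by omega)]
  · intro z hz
    rcases Nat.lt_or_ge (z + 1) (R - 1) with hz' | hz'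
    · rw [← (e1 z (by omega)).1, ← (e1 (z + 1) (by omega)).1, ← (e1 z (by omega)).2,
        ← (e1 (z + 1) (by omega)).2]
      exact h.inc z (by omega)
    · rw [show z + 1 = R - 1 by omega, e2, e3, show z = R - 2 by omega,
        ← (e1 (R - 2) (by omega)).1, ← (e1 (R - 2) (by omega)).2]
      intro h0 _
      have h1 := h.lt (R - 2) (by omega)
      have h2 := h.fin (R - 2) (by omega)
      have h3 := h.le (R - 2) (by omega)
      rw [if_pos]
      · exact h1
      · by_contra hc
        have := h2 (by omega)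
        omega
  · rw [e2, ← (e1 (R - 2) (by omega)).1]
  · rw [e2, e3]
    intro h0
    rw [if_pos h0]
  · rw [← lz_congr (κ := κ) (x := x) fun z hz => e1 z (by omega)]
    exact h.g0
  · intro y hy hyN
    rw [← (e1 y (by omega)).1] at hyN
    exact Gst_congr (fun z hz => e1 z (by omega)) (h.mono y (by omega))
      (h.gr y (by omega) hyN)

end Pool.Agent.Helper43.Hw.PkH5
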